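import Mathlib

/-!
Definitions for the portfolio problem on unrelated machines: load vectors of schedules,
ordered norms and approximate portfolios.
-/

namespace Pool.Agent.Lib.MP_61ce55_lc

open Finset

/-- The load vector of the schedule `s`, which sends job `j` to machine `s j`:
the load of machine `i` is the total processing time `p i j` of the jobs `j` sent to `i`. -/
def load {d n : ℕ} (p : Fin d → Fin n → ℝ) (s : Fin n → Fin d) : Fin d → ℝ :=
  fun i => ∑ j, if s j = i then p i j else 0

/-- The set `𝓓` of the load vectors of all feasible schedules. -/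
def loadVectors {d n : ℕ} (p : Fin d → Fin n → ℝ) : Set (Fin d → ℝ) :=
  Set.range (load p)

/-- The coordinates of `x` sorted in non-increasing order. -/
noncomputable def sortedDesc {d : ℕ} (x : Fin d → ℝ) : Fin d → ℝ :=
  fun k => x (Tuple.sort x (Fin.rev k))

/-- The ordered norm with weights `w`. -/
noncomputable def orderedNorm {d : ℕ} (w x : Fin d → ℝ) : ℝ :=
  ∑ k, w k * sortedDesc x k

/-- Admissible weight vectors: nonzero, non-increasing, nonnegative. -/
def IsWeight {d : ℕ} (w : Fin d → ℝ) : Prop :=
  w ≠ 0 ∧ Antitone w ∧ ∀ k, 0 ≤ w k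

/-- `X` is an `α`-approximate portfolio for the class of ordered norms. -/
def IsPortfolio {d n : ℕ} (α : ℝ) (p : Fin d → Fin n → ℝ) (X : Finset (Fin d → ℝ)) : Prop :=
  (X : Set (Fin d → ℝ)) ⊆ loadVectors p ∧
    ∀ w : Fin d → ℝ, IsWeight w →
      ∃ x ∈ X, ∀ y ∈ loadVectors p, orderedNorm w x ≤ α * orderedNorm w y

end Pool.Agent.Lib.MP_61ce55_lc
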