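import Mathlib
import Pool.Agent.Lib.MP_61ce55_lc.Defs

/-!
Proof of the lower bound for approximate portfolios on unrelated machines.

Scale `s` consists of the machines `i` with `Nat.log (M^4) i = s`.  A job `j` of odd scale
`2t+1` can be run on its own machine `j` (time `M^(-4t-2)`) or on the machine `j / M^4` of
scale `2t`, shared with all jobs having the same quotient (time `M^(-4t-4)`).  The weight
of rank `i` is `M^(-2s)` or `M^(-2s-1)`, the choice depending on a pattern `σ`.
-/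

namespace Pool.Agent.Lib.MP_61ce55_lc

open Finset

/-! ### General facts -/

theorem sortedDesc_antitone {d : ℕ} (x : Fin d → ℝ) : Antitone (sortedDesc x) := by
  intro a b hab
  have h := Tuple.monotone_sort x
  exact h (Fin.rev_le_rev.mpr hab)

/-- the permutation that sorts in non-increasing order -/
noncomputable def sortPerm {d : ℕ} (x : Fin d → ℝ) : Equiv.Perm (Fin d) :=
  Fin.revPerm.trans (Tuple.sort x)

theorem sortedDesc_eq {d : ℕ} (x : Fin d → ℝ) (k : Fin d) :
    sortedDesc x k = x (sortPerm x k) := rfl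

theorem sum_le_orderedNorm {d : ℕ} (w x : Fin d → ℝ) (hw : Antitone w) :
    ∑ i, w i * x i ≤ orderedNorm w x := by
  have h1 : Monovary w (sortedDesc x) := hw.monovary (sortedDesc_antitone x)
  have h2 := h1.sum_mul_comp_perm_le_sum_mul (σ := (sortPerm x).symm)
  calc ∑ i, w i * x i = ∑ i, w i * sortedDesc x ((sortPerm x).symm i) := by
        refine Finset.sum_congr rfl fun i _ => ?_
        rw [sortedDesc_eq, Equiv.apply_symm_apply]
    _ ≤ orderedNorm w x := h2

theorem sum_mul_load {d n : ℕ} (w : Fin d → ℝ) (p : Fin d → Fin n → ℝ) (s : Fin n → Fin d) :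
    ∑ i, w i * load p s i = ∑ j, w (s j) * p (s j) j := by
  unfold load
  simp_rw [Finset.mul_sum]
  rw [Finset.sum_comm]
  refine Finset.sum_congr rfl fun j _ => ?_
  simp

/-! ### The instance -/

/-- scale of a machine -/
def sc (M i : ℕ) : ℕ := Nat.log (M ^ 4) i

/-- scale `s` is cheap for the pattern `σ` -/
def cheap (σ : ℕ → Bool) (s : ℕ) : Prop := σ (s / 2) = decide (s % 2 = 0)

instance (σ : ℕ → Bool) (s : ℕ) : Decidable (cheap σ s) := by unfold cheap; infer_instance

/-- weight of rank `i` for the pattern `σ` -/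
noncomputable def wt (M : ℕ) (σ : ℕ → Bool) (i : ℕ) : ℝ :=
  ((M : ℝ)⁻¹) ^ (2 * sc M i) * (if cheap σ (sc M i) then (M : ℝ)⁻¹ else 1)

/-- processing times -/
noncomputable def pt (M L d : ℕ) (i j : ℕ) : ℝ :=
  if sc M j % 2 = 1 ∧ sc M j < 2 * L then
    (if i = j then ((M : ℝ)⁻¹) ^ (2 * sc M j)
      else if i = j / M ^ 4 then ((M : ℝ)⁻¹) ^ (2 * sc M j + 2)
      else (M : ℝ) ^ (2 * d + 1))
  else 0

theorem pt_nonneg (M L d i j : ℕ) : 0 ≤ pt M L d i j := by
  unfold pt
  split_ifs <;> positivity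

section
variable {M : ℕ} (hM : 2 ≤ M)
include hM

theorem invM_pos : (0 : ℝ) < (M : ℝ)⁻¹ := by
  have : (0 : ℝ) < M := by exact_mod_cast (by omega : 0 < M)
  positivity

theorem invM_le : (M : ℝ)⁻¹ ≤ 1 / 2 := by
  have : (2 : ℝ) ≤ M := by exact_mod_cast hM
  rw [one_div]
  exact inv_anti₀ (by norm_num) this

theorem wt_pos (σ : ℕ → Bool) (i : ℕ) : 0 < wt M σ i := by
  have := invM_pos hM
  unfold wt
  split_ifs <;> positivity

theorem wt_le (σ : ℕ → Bool) (i : ℕ) : wt M σ i ≤ ((M : ℝ)⁻¹) ^ (2 * sc M i) := by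
  have h1 := invM_pos hM
  have h2 := invM_le hM
  unfold wt
  have h3 : (0 : ℝ) < ((M : ℝ)⁻¹) ^ (2 * sc M i) := by positivity
  split_ifs
  · nlinarith
  · simp

theorem le_wt (σ : ℕ → Bool) (i : ℕ) : ((M : ℝ)⁻¹) ^ (2 * sc M i + 1) ≤ wt M σ i := by
  have h1 := invM_pos hM
  have h2 := invM_le hM
  unfold wt
  have h3 : (0 : ℝ) < ((M : ℝ)⁻¹) ^ (2 * sc M i) := by positivity
  rw [pow_succ]
  split_ifs
  · exact le_rfl
  · nlinarith

theorem wt_antitone (σ : ℕ → Bool) : Antitone (wt M σ) := by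
  intro a b hab
  have h1 := invM_pos hM
  have h2 := invM_le hM
  have h4 : sc M a ≤ sc M b := Nat.log_mono_right hab
  rcases h4.eq_or_lt with h | h
  · unfold wt; rw [h]
  · calc wt M σ b ≤ ((M : ℝ)⁻¹) ^ (2 * sc M b) := wt_le hM σ b
      _ ≤ ((M : ℝ)⁻¹) ^ (2 * sc M a + 1) :=
          pow_le_pow_of_le_one h1.le (by linarith) (by omega)
      _ ≤ wt M σ a := le_wt hM σ a

omit hM in
theorem sc_eq_iff {s i : ℕ} (hs : s ≠ 0) :
    sc M i = s ↔ (M ^ 4) ^ s ≤ i ∧ i < (M ^ 4) ^ (s + 1) := by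
  unfold sc
  exact Nat.log_eq_iff (Or.inl hs)

theorem one_lt_B : 1 < M ^ 4 := Nat.one_lt_pow (by norm_num) (by omega)

theorem lt_of_sc_lt {s i : ℕ} (h : sc M i < s) : i < (M ^ 4) ^ s := by
  unfold sc at h
  exact Nat.lt_pow_of_log_lt (one_lt_B hM) h

theorem sc_pow (s : ℕ) : sc M ((M ^ 4) ^ s) = s := by
  unfold sc
  exact Nat.log_pow (one_lt_B hM) s

/-- weights of the first `(M^4)^s` ranks -/
theorem sum_wt_le (σ : ℕ → Bool) (s : ℕ) :
    ∑ k ∈ range ((M ^ 4) ^ s), wt M σ k ≤ 2 * (M : ℝ) ^ 2 * (M : ℝ) ^ (2 * s) := by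
  have hMr : (2 : ℝ) ≤ M := by exact_mod_cast hM
  have h1 := invM_pos hM
  have h2 := invM_le hM
  induction s with
  | zero =>
    have := wt_le hM σ 0
    have h3 : sc M 0 = 0 := by simp [sc]
    rw [h3] at this
    simp only [pow_zero, range_one, sum_singleton, mul_zero, mul_one] at this ⊢
    nlinarith
  | succ s ih =>
    have hle : (M ^ 4) ^ s ≤ (M ^ 4) ^ (s + 1) :=
      Nat.pow_le_pow_right (by positivity) (by omega)
    rw [← Finset.sum_range_add_sum_Ico _ hle]
    have h5 : ∑ k ∈ Ico ((M ^ 4) ^ s) ((M ^ 4) ^ (s + 1)), wt M σ k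
        ≤ (M : ℝ) ^ 4 * (M : ℝ) ^ (2 * s) := by
      calc ∑ k ∈ Ico ((M ^ 4) ^ s) ((M ^ 4) ^ (s + 1)), wt M σ k
          ≤ ∑ k ∈ Ico ((M ^ 4) ^ s) ((M ^ 4) ^ (s + 1)), ((M : ℝ)⁻¹) ^ (2 * s) := by
            refine Finset.sum_le_sum fun k hk => ?_
            rw [Finset.mem_Ico] at hk
            calc wt M σ k ≤ wt M σ ((M ^ 4) ^ s) := wt_antitone hM σ hk.1
              _ ≤ ((M : ℝ)⁻¹) ^ (2 * sc M ((M ^ 4) ^ s)) := wt_le hM σ _
              _ = ((M : ℝ)⁻¹) ^ (2 * s) := by rw [sc_pow hM]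
        _ = (((M ^ 4) ^ (s + 1) - (M ^ 4) ^ s : ℕ) : ℝ) * ((M : ℝ)⁻¹) ^ (2 * s) := by
            simp
        _ ≤ (((M ^ 4) ^ (s + 1) : ℕ) : ℝ) * ((M : ℝ)⁻¹) ^ (2 * s) := by
            gcongr
            exact Nat.sub_le _ _
        _ = (M : ℝ) ^ 4 * (M : ℝ) ^ (2 * s) := by
            have hne : (M : ℝ) ≠ 0 := by positivity
            push_cast
            rw [inv_pow]
            field_simp
            ring
    calc _ ≤ 2 * (M : ℝ) ^ 2 * (M : ℝ) ^ (2 * s) + (M : ℝ) ^ 4 * (M : ℝ) ^ (2 * s) :=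
          add_le_add ih h5
      _ ≤ 2 * (M : ℝ) ^ 2 * (M : ℝ) ^ (2 * (s + 1)) := by
          have h6 : (M : ℝ) ^ (2 * (s + 1)) = (M : ℝ) ^ 2 * (M : ℝ) ^ (2 * s) := by
            rw [← pow_add]; congr 1; ring
          rw [h6]
          have h7 : (0 : ℝ) < (M : ℝ) ^ (2 * s) := by positivity
          have h8 : 2 * (M : ℝ) ^ 2 + (M : ℝ) ^ 4 ≤ 2 * (M : ℝ) ^ 2 * (M : ℝ) ^ 2 := by
            nlinarith [sq_nonneg ((M : ℝ) ^ 2), mul_nonneg (by positivity : (0:ℝ) ≤ (M:ℝ)^2) (by nlinarith : (0:ℝ) ≤ (M:ℝ)^2 - 2)]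
          nlinarith


omit hM in
/-- the scale of `j / M^4` -/
theorem sc_div (j : ℕ) : sc M (j / M ^ 4) = sc M j - 1 := by
  unfold sc
  exact Nat.log_div_base _ _

/-- cost of a real job at a machine, for one pattern: at least `(M^4)^{-s}` unless the
machine is the good one, and at least zero anyway. -/
theorem job_cost_pair {L d : ℕ} (σ τ : ℕ → Bool) {i j : ℕ} (hi : i < d)
    (hj : sc M j % 2 = 1) (hL : sc M j < 2 * L) (hne : σ (sc M j / 2) ≠ τ (sc M j / 2)) :
    ((M : ℝ)⁻¹) ^ (4 * sc M j) ≤ wt M σ i * pt M L d i j + wt M τ i * pt M L d i j := by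
  have h1 := invM_pos hM
  have h2 := invM_le hM
  have hMr : (0 : ℝ) < M := by exact_mod_cast (by omega : 0 < M)
  have hp : ∀ ρ : ℕ → Bool, 0 ≤ wt M ρ i * pt M L d i j := fun ρ =>
    mul_nonneg (wt_pos hM ρ i).le (pt_nonneg _ _ _ _ _)
  by_cases hij : i = j
  · -- spread machine
    subst hij
    have key : ∀ ρ : ℕ → Bool, ρ (sc M i / 2) = true →
        ((M : ℝ)⁻¹) ^ (4 * sc M i) ≤ wt M ρ i * pt M L d i i := by
      intro ρ hρ
      have hnc : ¬ cheap ρ (sc M i) := by
        unfold cheap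
        rw [hρ]
        simp [hj]
      unfold wt pt
      rw [if_neg hnc, if_pos ⟨hj, hL⟩, if_pos rfl, mul_one, ← pow_add]
      exact le_of_eq (congrArg _ (by ring))
    rcases Bool.eq_false_or_eq_true (σ (sc M i / 2)) with h | h
    · have := key σ h
      linarith [hp τ]
    · have h' : τ (sc M i / 2) = true := by
        rcases Bool.eq_false_or_eq_true (τ (sc M i / 2)) with h' | h'
        · exact h'
        · exact absurd (h.trans h'.symm) hne
      have := key τ h'
      linarith [hp σ]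
  · by_cases hij' : i = j / M ^ 4
    · have hsi : sc M i = sc M j - 1 := by rw [hij']; exact sc_div _
      have hdiv : sc M i / 2 = sc M j / 2 := by omega
      have key : ∀ ρ : ℕ → Bool, ρ (sc M j / 2) = false →
          ((M : ℝ)⁻¹) ^ (4 * sc M j) ≤ wt M ρ i * pt M L d i j := by
        intro ρ hρ
        have hnc : ¬ cheap ρ (sc M i) := by
          unfold cheap
          rw [hdiv, hρ]
          have : sc M i % 2 = 0 := by omega
          simp [this]
        unfold wt pt
        rw [if_neg hnc, if_pos ⟨hj, hL⟩, if_neg hij, if_pos hij', mul_one, ← pow_add]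
        exact le_of_eq (congrArg _ (by omega))
      rcases Bool.eq_false_or_eq_true (σ (sc M j / 2)) with h | h
      · have h' : τ (sc M j / 2) = false := by
          rcases Bool.eq_false_or_eq_true (τ (sc M j / 2)) with h' | h'
          · exact absurd (h.trans h'.symm) hne
          · exact h'
        have := key τ h'
        linarith [hp σ]
      · have := key σ h
        linarith [hp τ]
    · have key : (1 : ℝ) ≤ wt M σ i * pt M L d i j := by
        have h3 := le_wt hM σ i
        have h4 : sc M i ≤ d := by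
          have : sc M i ≤ i := Nat.log_le_self _ _
          omega
        unfold pt
        rw [if_pos ⟨hj, hL⟩, if_neg hij, if_neg hij']
        calc (1 : ℝ) = ((M : ℝ)⁻¹) ^ (2 * d + 1) * (M : ℝ) ^ (2 * d + 1) := by
              rw [← mul_pow, inv_mul_cancel₀ hMr.ne', one_pow]
          _ ≤ ((M : ℝ)⁻¹) ^ (2 * sc M i + 1) * (M : ℝ) ^ (2 * d + 1) := by
              refine mul_le_mul_of_nonneg_right ?_ (by positivity)
              exact pow_le_pow_of_le_one h1.le (by linarith) (by omega)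
          _ ≤ _ := mul_le_mul_of_nonneg_right h3 (by positivity)
      have h5 : ((M : ℝ)⁻¹) ^ (4 * sc M j) ≤ 1 := pow_le_one₀ h1.le (by linarith)
      linarith [hp τ]


/-- number of machines of scale `s` -/
theorem card_scale {L d : ℕ} (hd : (M ^ 4) ^ (2 * L) ≤ d) {t : ℕ} (ht : t < L) :
    #{j : Fin d | sc M j = 2 * t + 1} = (M ^ 4) ^ (2 * t + 2) - (M ^ 4) ^ (2 * t + 1) := by
  have hB := one_lt_B hM
  have h1 : (M ^ 4) ^ (2 * t + 2) ≤ d :=
    (Nat.pow_le_pow_right (by omega) (by omega)).trans hd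
  rw [← Nat.card_Ico]
  rw [← Finset.card_map Fin.valEmbedding]
  congr 1
  ext j
  simp only [Finset.mem_map, Finset.mem_filter, Finset.mem_univ, true_and,
    Fin.valEmbedding_apply, Finset.mem_Ico]
  constructor
  · rintro ⟨a, ha, rfl⟩
    exact (sc_eq_iff (by omega)).mp ha
  · intro hj
    exact ⟨⟨j, by omega⟩, (sc_eq_iff (by omega)).mpr hj, rfl⟩

/-- the processing times of the instance -/
noncomputable def inst (M L d : ℕ) : Fin d → Fin d → ℝ := fun i j => pt M L d i j

/-- Any schedule is expensive for at least one of two far apart patterns. -/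
theorem pair_lower {L d : ℕ} (hd : (M ^ 4) ^ (2 * L) ≤ d) (σ τ : ℕ → Bool)
    (S : Fin d → Fin d) :
    ((M : ℝ) ^ 4 - 1) * #{t ∈ range L | σ t ≠ τ t} ≤
      orderedNorm (fun i : Fin d => wt M σ i) (load (inst M L d) S) +
      orderedNorm (fun i : Fin d => wt M τ i) (load (inst M L d) S) := by
  have h1 := invM_pos hM
  have h2 := invM_le hM
  have hMr : (0 : ℝ) < M := by exact_mod_cast (by omega : 0 < M)
  have hanti : ∀ ρ : ℕ → Bool, Antitone (fun i : Fin d => wt M ρ i) :=
    fun ρ a b hab => wt_antitone hM ρ hab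
  have hlow : ∀ ρ : ℕ → Bool, ∑ j : Fin d, wt M ρ (S j) * pt M L d (S j) j ≤
      orderedNorm (fun i : Fin d => wt M ρ i) (load (inst M L d) S) := by
    intro ρ
    refine le_trans (le_of_eq ?_) (sum_le_orderedNorm _ _ (hanti ρ))
    rw [sum_mul_load]
    rfl
  refine le_trans ?_ (add_le_add (hlow σ) (hlow τ))
  rw [← Finset.sum_add_distrib]
  calc ((M : ℝ) ^ 4 - 1) * #{t ∈ range L | σ t ≠ τ t}
      = ∑ t ∈ range L with σ t ≠ τ t, ((M : ℝ) ^ 4 - 1) := by
        rw [Finset.sum_const, nsmul_eq_mul, mul_comm]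
    _ = ∑ t ∈ range L with σ t ≠ τ t, ∑ j : Fin d,
          (if sc M j = 2 * t + 1 then ((M : ℝ)⁻¹) ^ (4 * (2 * t + 1)) else 0) := by
        refine Finset.sum_congr rfl fun t ht => ?_
        rw [Finset.mem_filter, Finset.mem_range] at ht
        rw [← Finset.sum_filter, Finset.sum_const, card_scale hM hd ht.1, nsmul_eq_mul]
        have hle : (M ^ 4) ^ (2 * t + 1) ≤ (M ^ 4) ^ (2 * t + 2) :=
          Nat.pow_le_pow_right (by positivity) (by omega)
        rw [Nat.cast_sub hle]
        push_cast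
        rw [← pow_mul, ← pow_mul, sub_mul, ← mul_pow, mul_inv_cancel₀ hMr.ne', one_pow]
        have : 4 * (2 * t + 2) = 4 + 4 * (2 * t + 1) := by ring
        rw [this, pow_add, mul_assoc, ← mul_pow, mul_inv_cancel₀ hMr.ne', one_pow, mul_one]
    _ = ∑ j : Fin d, ∑ t ∈ range L with σ t ≠ τ t,
          (if sc M j = 2 * t + 1 then ((M : ℝ)⁻¹) ^ (4 * (2 * t + 1)) else 0) :=
        Finset.sum_comm
    _ ≤ ∑ j : Fin d, (wt M σ (S j) * pt M L d (S j) j + wt M τ (S j) * pt M L d (S j) j) := by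
        refine Finset.sum_le_sum fun j _ => ?_
        have hnn : 0 ≤ wt M σ (S j) * pt M L d (S j) j + wt M τ (S j) * pt M L d (S j) j :=
          add_nonneg (mul_nonneg (wt_pos hM _ _).le (pt_nonneg _ _ _ _ _))
            (mul_nonneg (wt_pos hM _ _).le (pt_nonneg _ _ _ _ _))
        by_cases hex : ∃ t ∈ ({t ∈ range L | σ t ≠ τ t} : Finset ℕ), sc M j = 2 * t + 1
        · obtain ⟨t, ht, htj⟩ := hex
          rw [Finset.sum_eq_single_of_mem t ht]
          · rw [if_pos htj]
            rw [Finset.mem_filter, Finset.mem_range] at ht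
            have hdiv : sc M j / 2 = t := by omega
            have := job_cost_pair hM (L := L) (d := d) σ τ (i := S j) (j := j) (S j).2
              (by omega) (by omega) (by rw [hdiv]; exact ht.2)
            rwa [htj] at this
          · intro b _ hb
            rw [if_neg]
            omega
        · push Not at hex
          rw [Finset.sum_eq_zero]
          · exact hnn
          · intro t ht
            rw [if_neg (hex t ht)]

/-- the good schedule for the pattern `σ` -/
def good (M L : ℕ) (σ : ℕ → Bool) {d : ℕ} (j : Fin d) : Fin d :=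
  if sc M j % 2 = 1 ∧ sc M j < 2 * L ∧ σ (sc M j / 2) = true then
    ⟨j / M ^ 4, lt_of_le_of_lt (Nat.div_le_self _ _) j.2⟩ else j

theorem load_good_le (L d : ℕ) (σ : ℕ → Bool) (i : Fin d) :
    load (inst M L d) (good M L σ) i ≤
      if cheap σ (sc M i) ∧ sc M i < 2 * L then ((M : ℝ)⁻¹) ^ (2 * sc M i) else 0 := by
  have h1 := invM_pos hM
  have hMr : (0 : ℝ) < M := by exact_mod_cast (by omega : 0 < M)
  unfold load
  rcases Nat.mod_two_eq_zero_or_one (sc M i) with hpar | hpar
  · -- even scale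
    have hterm : ∀ j : Fin d, (if good M L σ j = i then inst M L d i j else 0) ≤
        if (j : ℕ) / M ^ 4 = i then
          (if cheap σ (sc M i) ∧ sc M i < 2 * L then ((M : ℝ)⁻¹) ^ (2 * sc M i + 4) else 0)
        else 0 := by
      intro j
      by_cases hg : sc M j % 2 = 1 ∧ sc M j < 2 * L ∧ σ (sc M j / 2) = true
      · unfold good
        rw [if_pos hg]
        by_cases hij : (j : ℕ) / M ^ 4 = i
        · have hij' : (⟨(j : ℕ) / M ^ 4, lt_of_le_of_lt (Nat.div_le_self _ _) j.2⟩ : Fin d) = i :=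
            Fin.ext hij
          rw [if_pos hij', if_pos hij]
          have hsi : sc M i = sc M j - 1 := by rw [← hij]; exact sc_div _
          have hch : cheap σ (sc M i) ∧ sc M i < 2 * L := by
            refine ⟨?_, by omega⟩
            unfold cheap
            have : sc M i / 2 = sc M j / 2 := by omega
            rw [this, hg.2.2]
            simp [hpar]
          rw [if_pos hch]
          unfold inst pt
          rw [if_pos ⟨hg.1, hg.2.1⟩, if_neg, if_pos hij.symm]
          · exact le_of_eq (congrArg _ (by omega))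
          · intro h
            rw [h] at hpar
            omega
        · have hij' : ¬ (⟨(j : ℕ) / M ^ 4, lt_of_le_of_lt (Nat.div_le_self _ _) j.2⟩ : Fin d) = i :=
            fun h => hij (congrArg Fin.val h)
          rw [if_neg hij', if_neg hij]
      · have hgj : good M L σ j = j := by unfold good; rw [if_neg hg]
        rw [hgj]
        have hz : (if j = i then inst M L d i j else 0) = 0 := by
          split_ifs with h
          · subst h
            unfold inst pt
            rw [if_neg]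
            omega
          · rfl
        rw [hz]
        split_ifs <;> positivity
    refine (Finset.sum_le_sum fun j _ => hterm j).trans ?_
    rw [← Finset.sum_filter, Finset.sum_const, nsmul_eq_mul]
    have hcard : #{j : Fin d | (j : ℕ) / M ^ 4 = i} ≤ M ^ 4 := by
      have hB := one_lt_B hM
      calc #{j : Fin d | (j : ℕ) / M ^ 4 = i}
          = #((({j : Fin d | (j : ℕ) / M ^ 4 = i} : Finset (Fin d))).map Fin.valEmbedding) := by
            rw [Finset.card_map]
        _ ≤ #(Finset.Ico ((i : ℕ) * M ^ 4) (((i : ℕ) + 1) * M ^ 4)) := by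
            refine Finset.card_le_card fun j hj => ?_
            simp only [Finset.mem_map, Finset.mem_filter, Finset.mem_univ, true_and,
              Fin.valEmbedding_apply] at hj
            obtain ⟨a, ha, rfl⟩ := hj
            rw [Finset.mem_Ico]
            exact (Nat.div_eq_iff (by omega)).mp ha |>.imp (by simp) (by
              intro h
              have : (i : ℕ) * M ^ 4 + M ^ 4 = ((i : ℕ) + 1) * M ^ 4 := by ring
              omega)
        _ = M ^ 4 := by
            rw [Nat.card_Ico]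
            have : ((i : ℕ) + 1) * M ^ 4 = (i : ℕ) * M ^ 4 + M ^ 4 := by ring
            omega
    split_ifs with hc
    · calc (#{j : Fin d | (j : ℕ) / M ^ 4 = i} : ℝ) * ((M : ℝ)⁻¹) ^ (2 * sc M i + 4)
          ≤ (M : ℝ) ^ 4 * ((M : ℝ)⁻¹) ^ (2 * sc M i + 4) := by
            gcongr
            exact_mod_cast hcard
        _ = ((M : ℝ)⁻¹) ^ (2 * sc M i) := by
            rw [pow_add]
            have : (M : ℝ) ^ 4 * ((M : ℝ)⁻¹) ^ 4 = 1 := by
              rw [← mul_pow, mul_inv_cancel₀ hMr.ne', one_pow]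
            linear_combination ((M : ℝ)⁻¹) ^ (2 * sc M i) * this
    · simp
  · -- odd scale
    have hterm : ∀ j : Fin d, (if good M L σ j = i then inst M L d i j else 0) ≤
        if j = i then
          (if cheap σ (sc M i) ∧ sc M i < 2 * L then ((M : ℝ)⁻¹) ^ (2 * sc M i) else 0)
        else 0 := by
      intro j
      by_cases hg : sc M j % 2 = 1 ∧ sc M j < 2 * L ∧ σ (sc M j / 2) = true
      · have hz : good M L σ j ≠ i := by
          intro h
          unfold good at h
          rw [if_pos hg] at h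
          have h' : (j : ℕ) / M ^ 4 = i := congrArg Fin.val h
          have hsi : sc M i = sc M j - 1 := by rw [← h']; exact sc_div _
          omega
        rw [if_neg hz]
        split_ifs <;> positivity
      · have hgj : good M L σ j = j := by unfold good; rw [if_neg hg]
        rw [hgj]
        by_cases hji : j = i
        · subst hji
          rw [if_pos rfl, if_pos rfl]
          unfold inst pt
          by_cases hL : sc M j < 2 * L
          · rw [if_pos ⟨hpar, hL⟩, if_pos rfl]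
            have hch : cheap σ (sc M j) := by
              unfold cheap
              have : σ (sc M j / 2) = false := by
                rcases Bool.eq_false_or_eq_true (σ (sc M j / 2)) with h | h
                · exact absurd ⟨hpar, hL, h⟩ hg
                · exact h
              rw [this]
              simp [hpar]
            rw [if_pos ⟨hch, hL⟩]
          · rw [if_neg (fun h => hL h.2)]
            split_ifs <;> positivity
        · rw [if_neg hji, if_neg hji]
    refine (Finset.sum_le_sum fun j _ => hterm j).trans ?_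
    rw [Finset.sum_ite_eq' Finset.univ i]
    simp


/-- the total weight of the ranks that a permutation sends to a cheap scale -/
theorem sum_wt_perm_le (d : ℕ) (σ : ℕ → Bool) (π : Equiv.Perm (Fin d)) {s : ℕ}
    (hs : cheap σ s) :
    ∑ k : Fin d, (if sc M (π k) = s then wt M σ k else 0) ≤
      2 * (M : ℝ) ^ 2 * (M : ℝ) ^ (2 * s) + (M : ℝ) ^ 3 * (M : ℝ) ^ (2 * s) := by
  have h1 := invM_pos hM
  have hMr : (0 : ℝ) < M := by exact_mod_cast (by omega : 0 < M)
  have hterm : ∀ k : Fin d, (if sc M (π k) = s then wt M σ k else 0) ≤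
      (if (k : ℕ) < (M ^ 4) ^ s then wt M σ k else 0) +
      (if sc M (π k) = s then ((M : ℝ)⁻¹) ^ (2 * s + 1) else 0) := by
    intro k
    have hw := wt_pos hM σ k
    have hpp : 0 < ((M : ℝ)⁻¹) ^ (2 * s + 1) := by positivity
    by_cases hk : (k : ℕ) < (M ^ 4) ^ s
    · rw [if_pos hk]
      split_ifs <;> linarith
    · rw [if_neg hk, zero_add]
      split_ifs with h
      · calc wt M σ k ≤ wt M σ ((M ^ 4) ^ s) := wt_antitone hM σ (not_lt.mp hk)
          _ = ((M : ℝ)⁻¹) ^ (2 * s + 1) := by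
            unfold wt
            rw [sc_pow hM, if_pos hs, pow_succ]
      · exact le_rfl
  refine (Finset.sum_le_sum fun k _ => hterm k).trans ?_
  rw [Finset.sum_add_distrib]
  refine add_le_add ?_ ?_
  · calc ∑ k : Fin d, (if (k : ℕ) < (M ^ 4) ^ s then wt M σ k else 0)
        = ∑ k ∈ range d, (if k < (M ^ 4) ^ s then wt M σ k else 0) :=
          (Finset.sum_range fun k => (if k < (M ^ 4) ^ s then wt M σ k else 0)).symm
      _ = ∑ k ∈ range d with k < (M ^ 4) ^ s, wt M σ k := (Finset.sum_filter _ _).symm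
      _ ≤ ∑ k ∈ range ((M ^ 4) ^ s), wt M σ k := by
          refine Finset.sum_le_sum_of_subset_of_nonneg ?_ fun k _ _ => (wt_pos hM σ k).le
          intro k hk
          rw [Finset.mem_filter] at hk
          exact Finset.mem_range.mpr hk.2
      _ ≤ _ := sum_wt_le hM σ s
  · rw [← Finset.sum_filter, Finset.sum_const, nsmul_eq_mul]
    have hcard : #{k : Fin d | sc M (π k) = s} ≤ (M ^ 4) ^ (s + 1) := by
      calc #{k : Fin d | sc M (π k) = s}
          = #(({k : Fin d | sc M (π k) = s} : Finset (Fin d)).map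
              (π.toEmbedding.trans Fin.valEmbedding)) := by rw [Finset.card_map]
        _ ≤ #(range ((M ^ 4) ^ (s + 1))) := by
            refine Finset.card_le_card fun j hj => ?_
            simp only [Finset.mem_map, Finset.mem_filter, Finset.mem_univ, true_and,
              Function.Embedding.trans_apply, Equiv.coe_toEmbedding,
              Fin.valEmbedding_apply] at hj
            obtain ⟨a, ha, rfl⟩ := hj
            rw [Finset.mem_range]
            exact lt_of_sc_lt hM (by omega)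
        _ = (M ^ 4) ^ (s + 1) := Finset.card_range _
    calc (#{k : Fin d | sc M (π k) = s} : ℝ) * ((M : ℝ)⁻¹) ^ (2 * s + 1)
        ≤ (((M ^ 4) ^ (s + 1) : ℕ) : ℝ) * ((M : ℝ)⁻¹) ^ (2 * s + 1) := by
          gcongr
      _ = (M : ℝ) ^ 3 * (M : ℝ) ^ (2 * s) := by
          have hne : (M : ℝ) ≠ 0 := hMr.ne'
          push_cast
          rw [inv_pow]
          field_simp
          ring

omit hM in
theorem sum_cheap (σ : ℕ → Bool) (c : ℝ) (L : ℕ) :
    ∑ s ∈ range (2 * L), (if cheap σ s then c else 0) = L * c := by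
  induction L with
  | zero => simp
  | succ L ih =>
    rw [show 2 * (L + 1) = 2 * L + 1 + 1 by ring, Finset.sum_range_succ,
      Finset.sum_range_succ, ih]
    have h1 : (2 * L) / 2 = L := by omega
    have h2 : (2 * L + 1) / 2 = L := by omega
    have h3 : (2 * L) % 2 = 0 := by omega
    have h4 : (2 * L + 1) % 2 = 1 := by omega
    have h5 : cheap σ (2 * L) ↔ σ L = true := by
      unfold cheap
      rw [h1, h3]
      simp
    have h6 : cheap σ (2 * L + 1) ↔ σ L = false := by
      unfold cheap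
      rw [h2, h4]
      simp
    rcases Bool.eq_false_or_eq_true (σ L) with h | h
    · rw [if_pos (h5.mpr h), if_neg (by rw [h6, h]; simp)]
      push_cast
      ring
    · rw [if_neg (by rw [h5, h]; simp), if_pos (h6.mpr h)]
      push_cast
      ring

/-- the good schedule is cheap -/
theorem good_upper (L d : ℕ) (σ : ℕ → Bool) :
    orderedNorm (fun i : Fin d => wt M σ i) (load (inst M L d) (good M L σ)) ≤
      2 * L * (M : ℝ) ^ 3 := by
  have h1 := invM_pos hM
  have hMr : (2 : ℝ) ≤ M := by exact_mod_cast hM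
  set y := load (inst M L d) (good M L σ) with hy
  unfold orderedNorm
  calc ∑ k : Fin d, wt M σ k * sortedDesc y k
      ≤ ∑ k : Fin d, ∑ s ∈ range (2 * L), (if cheap σ s then
          (((M : ℝ)⁻¹) ^ (2 * s) * if sc M (sortPerm y k) = s then wt M σ k else 0) else 0) := by
        refine Finset.sum_le_sum fun k _ => ?_
        rw [sortedDesc_eq]
        have hle := load_good_le hM L d σ (sortPerm y k)
        rw [← hy] at hle
        have hw := wt_pos hM σ k
        refine (mul_le_mul_of_nonneg_left hle hw.le).trans ?_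
        have hnn : ∀ s ∈ range (2 * L), 0 ≤ (if cheap σ s then
          (((M : ℝ)⁻¹) ^ (2 * s) * if sc M (sortPerm y k) = s then wt M σ k else 0) else 0) := by
          intro s _
          split_ifs <;> positivity
        split_ifs with hc
        · refine le_trans (le_of_eq ?_) (Finset.single_le_sum hnn
            (Finset.mem_range.mpr hc.2))
          rw [if_pos hc.1, if_pos rfl, mul_comm]
        · rw [mul_zero]
          exact Finset.sum_nonneg hnn
    _ = ∑ s ∈ range (2 * L), (if cheap σ s then (((M : ℝ)⁻¹) ^ (2 * s) *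
          ∑ k : Fin d, if sc M (sortPerm y k) = s then wt M σ k else 0) else 0) := by
        rw [Finset.sum_comm]
        refine Finset.sum_congr rfl fun s _ => ?_
        split_ifs
        · rw [Finset.mul_sum]
        · simp
    _ ≤ ∑ s ∈ range (2 * L), (if cheap σ s then 2 * (M : ℝ) ^ 3 else 0) := by
        refine Finset.sum_le_sum fun s _ => ?_
        split_ifs with hc
        · have h5 := sum_wt_perm_le hM d σ (sortPerm y) hc
          calc ((M : ℝ)⁻¹) ^ (2 * s) * _ ≤ ((M : ℝ)⁻¹) ^ (2 * s) *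
              (2 * (M : ℝ) ^ 2 * (M : ℝ) ^ (2 * s) + (M : ℝ) ^ 3 * (M : ℝ) ^ (2 * s)) :=
                mul_le_mul_of_nonneg_left h5 (by positivity)
            _ = 2 * (M : ℝ) ^ 2 + (M : ℝ) ^ 3 := by
                have : ((M : ℝ)⁻¹) ^ (2 * s) * (M : ℝ) ^ (2 * s) = 1 := by
                  rw [← mul_pow, inv_mul_cancel₀ (by positivity), one_pow]
                linear_combination (2 * (M : ℝ) ^ 2 + (M : ℝ) ^ 3) * this
            _ ≤ 2 * (M : ℝ) ^ 3 := by nlinarith [sq_nonneg (M : ℝ)]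
        · exact le_rfl
    _ = 2 * L * (M : ℝ) ^ 3 := by
        rw [sum_cheap]
        ring

end

/-! ### Counting -/

/-- A set of patterns of small diameter is small. -/
theorem card_small_diam {L r : ℕ} (F : Finset (Fin L → Bool))
    (hF : ∀ σ ∈ F, ∀ τ ∈ F, #{t : Fin L | σ t ≠ τ t} ≤ r) :
    (#F : ℝ) ≤ 4 ^ r * (5 / 4) ^ L := by
  rcases F.eq_empty_or_nonempty with rfl | ⟨τ, hτ⟩
  · simp; positivity
  have h1 : ∑ σ : Fin L → Bool, ∏ t, (if σ t ≠ τ t then (1 / 4 : ℝ) else 1) = (5 / 4) ^ L := by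
    have := Finset.prod_univ_sum (fun _ : Fin L => (Finset.univ : Finset Bool))
      (fun t b => if b ≠ τ t then (1 / 4 : ℝ) else 1)
    rw [Fintype.piFinset_univ] at this
    rw [← this]
    rw [Finset.prod_congr rfl (g := fun _ => (5 / 4 : ℝ))]
    · rw [Finset.prod_const, Finset.card_univ, Fintype.card_fin]
    · intro t _
      rw [Fintype.sum_bool]
      cases τ t <;> norm_num
  have h2 : ∀ σ ∈ F, (1 / 4 : ℝ) ^ r ≤ ∏ t, (if σ t ≠ τ t then (1 / 4 : ℝ) else 1) := by
    intro σ hσ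
    rw [Finset.prod_ite, Finset.prod_const_one, mul_one, Finset.prod_const]
    exact pow_le_pow_of_le_one (by norm_num) (by norm_num) (hF σ hσ τ hτ)
  have h3 : (#F : ℝ) * (1 / 4 : ℝ) ^ r ≤ (5 / 4) ^ L := by
    rw [← nsmul_eq_mul, ← Finset.sum_const, ← h1]
    refine (Finset.sum_le_sum h2).trans ?_
    refine Finset.sum_le_sum_of_subset_of_nonneg (Finset.subset_univ _) fun σ _ _ => ?_
    exact Finset.prod_nonneg fun t _ => by split_ifs <;> norm_num
  have h4 : (4 : ℝ) ^ r * (1 / 4 : ℝ) ^ r = 1 := by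
    rw [← mul_pow]; norm_num
  have h5 : (0 : ℝ) < 4 ^ r := by positivity
  calc (#F : ℝ) = 4 ^ r * (#F * (1 / 4 : ℝ) ^ r) := by linear_combination (-(#F : ℝ)) * h4
    _ ≤ 4 ^ r * (5 / 4) ^ L := mul_le_mul_of_nonneg_left h3 h5.le

/-- extend a finite pattern -/
def ext (L : ℕ) (σ : Fin L → Bool) (t : ℕ) : Bool := if h : t < L then σ ⟨t, h⟩ else false

theorem card_ext (L : ℕ) (σ τ : Fin L → Bool) :
    #{t ∈ range L | ext L σ t ≠ ext L τ t} = #{t : Fin L | σ t ≠ τ t} := by
  rw [← Finset.card_map (Fin.valEmbedding (n := L)) (s := {t : Fin L | σ t ≠ τ t})]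
  congr 1
  ext t
  simp only [Finset.mem_map, Finset.mem_filter, Finset.mem_univ, true_and,
    Fin.valEmbedding_apply, Finset.mem_range]
  constructor
  · rintro ⟨ht, h⟩
    refine ⟨⟨t, ht⟩, ?_, rfl⟩
    simpa [ext, ht] using h
  · rintro ⟨a, ha, rfl⟩
    exact ⟨a.2, by simpa [ext] using ha⟩

/-- The portfolio of the instance `inst M L d` must be large. -/
theorem core {M L d : ℕ} (hM : 2 ≤ M) (hd : (M ^ 4) ^ (2 * L) ≤ d) {α : ℝ} (hα : 1 ≤ α)
    (hMα : 64 * α ≤ M) (X : Finset (Fin d → ℝ)) (hX : IsPortfolio α (inst M L d) X) :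
    (10 : ℝ) ^ L ≤ (#X : ℝ) ^ 8 := by
  have hMr : (2 : ℝ) ≤ M := by exact_mod_cast hM
  have hd0 : 0 < d := lt_of_lt_of_le (by positivity) hd
  have hweight : ∀ σ : Fin L → Bool, IsWeight (fun i : Fin d => wt M (ext L σ) i) := by
    intro σ
    refine ⟨?_, fun a b hab => wt_antitone hM _ hab, fun k => (wt_pos hM _ _).le⟩
    intro h
    have := congrFun h ⟨0, hd0⟩
    exact (wt_pos hM (ext L σ) 0).ne' this
  have hgood : ∀ σ : Fin L → Bool, ∃ x ∈ X,
      orderedNorm (fun i : Fin d => wt M (ext L σ) i) x ≤ α * (2 * L * (M : ℝ) ^ 3) := by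
    intro σ
    obtain ⟨x, hx, hxy⟩ := hX.2 _ (hweight σ)
    refine ⟨x, hx, (hxy (load (inst M L d) (good M L (ext L σ))) ⟨_, rfl⟩).trans ?_⟩
    exact mul_le_mul_of_nonneg_left (good_upper hM L d (ext L σ)) (by linarith)
  choose g hgX hg using hgood
  have hfib : ∀ x ∈ X, (#{σ : Fin L → Bool | g σ = x} : ℝ) ≤ 4 ^ (L / 8) * (5 / 4) ^ L := by
    intro x hx
    refine card_small_diam _ fun σ hσ τ hτ => ?_
    rw [Finset.mem_filter] at hσ hτ
    obtain ⟨S, hS⟩ := hX.1 hx
    have h1 := hg σ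
    have h2 := hg τ
    rw [hσ.2, ← hS] at h1
    rw [hτ.2, ← hS] at h2
    have h3 := pair_lower hM hd (ext L σ) (ext L τ) S
    rw [card_ext] at h3
    set D : ℕ := #{t : Fin L | σ t ≠ τ t} with hD
    rw [Nat.le_div_iff_mul_le (by norm_num)]
    have h4 : ((M : ℝ) ^ 4 - 1) * D ≤ 4 * α * L * (M : ℝ) ^ 3 := by linarith
    have h5 : 4 * α * L * (M : ℝ) ^ 3 ≤ L * (M : ℝ) ^ 4 / 16 := by
      have h6 : 0 ≤ (L : ℝ) * (M : ℝ) ^ 3 := by positivity
      have h7 := mul_le_mul_of_nonneg_left hMα h6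
      have h8 : (M : ℝ) ^ 4 = (M : ℝ) ^ 3 * M := by ring
      rw [h8]
      nlinarith
    have h9 : (M : ℝ) ^ 4 / 2 ≤ (M : ℝ) ^ 4 - 1 := by
      have : (2 : ℝ) ^ 4 ≤ (M : ℝ) ^ 4 := pow_le_pow_left₀ (by norm_num) hMr 4
      linarith
    have h10 : (M : ℝ) ^ 4 / 2 * D ≤ L * (M : ℝ) ^ 4 / 16 :=
      ((mul_le_mul_of_nonneg_right h9 (Nat.cast_nonneg D)).trans h4).trans h5
    have h11 : (0 : ℝ) < (M : ℝ) ^ 4 := by positivity
    have h12 : (D : ℝ) * 8 ≤ L := by
      by_contra hcon
      push Not at hcon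
      have := mul_lt_mul_of_pos_left hcon h11
      linarith
    exact_mod_cast h12
  have hcount : (2 : ℝ) ^ L ≤ #X * (4 ^ (L / 8) * (5 / 4) ^ L) := by
    have h1 : #(Finset.univ : Finset (Fin L → Bool)) =
        ∑ x ∈ X, #{σ : Fin L → Bool | g σ = x} :=
      Finset.card_eq_sum_card_fiberwise fun σ _ => hgX σ
    have h2 : #(Finset.univ : Finset (Fin L → Bool)) = 2 ^ L := by
      rw [Finset.card_univ]; simp
    have h3 : (2 : ℝ) ^ L = ∑ x ∈ X, (#{σ : Fin L → Bool | g σ = x} : ℝ) := by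
      rw [← Nat.cast_sum, ← h1, h2]; push_cast; rfl
    rw [h3, ← nsmul_eq_mul, ← Finset.sum_const]
    exact Finset.sum_le_sum hfib
  have h1 : (8 / 5 : ℝ) ^ L ≤ #X * 4 ^ (L / 8) := by
    have h2 : (0 : ℝ) < (5 / 4) ^ L := by positivity
    have h3 : (2 : ℝ) ^ L = (8 / 5) ^ L * (5 / 4) ^ L := by rw [← mul_pow]; norm_num
    rw [h3, ← mul_assoc] at hcount
    exact le_of_mul_le_mul_right hcount h2
  have h2 : ((8 / 5 : ℝ) ^ L) ^ 8 ≤ (#X * 4 ^ (L / 8)) ^ 8 :=
    pow_le_pow_left₀ (by positivity) h1 8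
  have h3 : ((4 : ℝ) ^ (L / 8)) ^ 8 ≤ 4 ^ L := by
    rw [← pow_mul]
    exact pow_le_pow_right₀ (by norm_num) (Nat.div_mul_le_self _ _)
  have h4 : ((40 : ℝ)) ^ L ≤ ((8 / 5 : ℝ) ^ L) ^ 8 := by
    rw [← pow_mul, mul_comm, pow_mul]
    exact pow_le_pow_left₀ (by norm_num) (by norm_num) L
  have h5 : (40 : ℝ) ^ L ≤ (#X : ℝ) ^ 8 * 4 ^ L := by
    calc (40 : ℝ) ^ L ≤ (#X * 4 ^ (L / 8)) ^ 8 := h4.trans h2
      _ = (#X : ℝ) ^ 8 * ((4 : ℝ) ^ (L / 8)) ^ 8 := by rw [mul_pow]
      _ ≤ _ := mul_le_mul_of_nonneg_left h3 (by positivity)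
  have h6 : (40 : ℝ) ^ L = 10 ^ L * 4 ^ L := by rw [← mul_pow]; norm_num
  rw [h6] at h5
  exact le_of_mul_le_mul_right h5 (by positivity)

/-- **Main theorem.** For every `α ≥ 1` and every number `d ≥ 2` of machines there is an
instance with `d` unrelated machines in which every `α`-approximate portfolio for the
ordered norms has at least `(1/2) d ^ (1 / (250 log (α + 1)))` elements. -/
theorem lower_bound : ∀ α : ℝ, 1 ≤ α → ∀ d : ℕ, 2 ≤ d →
    ∃ (n : ℕ) (p : Fin d → Fin n → ℝ), 1 ≤ n ∧ (∀ i j, 0 ≤ p i j) ∧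
      ∀ X : Finset (Fin d → ℝ), IsPortfolio α p X →
        1 / 2 * (d : ℝ) ^ (1 / (250 * Real.log (α + 1))) ≤ (#X : ℝ) := by
  intro α hα d hd
  set M : ℕ := ⌈64 * α⌉₊ with hMdef
  have hMα : 64 * α ≤ M := Nat.le_ceil _
  have hM64 : (64 : ℝ) ≤ M := by linarith
  have hM : 2 ≤ M := by
    have : (2 : ℝ) ≤ M := by linarith
    exact_mod_cast this
  have hMup : (M : ℝ) ≤ (α + 1) ^ 7 := by
    have h1 : (M : ℝ) < 64 * α + 1 := Nat.ceil_lt_add_one (by linarith)
    have h2 : (2 : ℝ) ^ 6 ≤ (α + 1) ^ 6 := pow_le_pow_left₀ (by norm_num) (by linarith) 6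
    have h3 : (α + 1) ^ 7 = (α + 1) ^ 6 * (α + 1) := by ring
    nlinarith
  set L : ℕ := Nat.log (M ^ 8) d with hLdef
  have hB : 1 < M ^ 8 := Nat.one_lt_pow (by norm_num) (by omega)
  have hdL : (M ^ 4) ^ (2 * L) ≤ d := by
    have h1 : (M ^ 8) ^ L ≤ d := Nat.pow_log_le_self _ (by omega)
    rw [← pow_mul] at h1 ⊢
    rwa [show 4 * (2 * L) = 8 * L by ring]
  have hdu : (d : ℝ) ≤ ((α + 1) ^ 56) ^ (L + 1) := by
    have h1 : d < (M ^ 8) ^ (L + 1) := Nat.lt_pow_succ_log_self hB d
    calc (d : ℝ) ≤ (((M ^ 8) ^ (L + 1) : ℕ) : ℝ) := by exact_mod_cast h1.le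
      _ = ((M : ℝ) ^ 8) ^ (L + 1) := by push_cast; rfl
      _ ≤ (((α + 1) ^ 7) ^ 8) ^ (L + 1) := by gcongr
      _ = ((α + 1) ^ 56) ^ (L + 1) := by rw [← pow_mul (α + 1) 7 8]
  refine ⟨d, inst M L d, by omega, fun i j => pt_nonneg _ _ _ _ _, fun X hX => ?_⟩
  have hcore := core hM hdL hα hMα X hX
  have hlogpos : 0 < Real.log (α + 1) := Real.log_pos (by linarith)
  have hdpos : (0 : ℝ) < d := by exact_mod_cast (by omega : 0 < d)
  have hlogd : Real.log d ≤ 56 * (L + 1) * Real.log (α + 1) := by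
    have := Real.log_le_log hdpos hdu
    rw [Real.log_pow, Real.log_pow] at this
    push_cast at this
    linarith
  set E : ℝ := (d : ℝ) ^ (1 / (250 * Real.log (α + 1))) with hE
  have hEpos : 0 < E := Real.rpow_pos_of_pos hdpos _
  have hE1 : E ≤ Real.exp ((L + 1) / 4) := by
    rw [hE, Real.rpow_def_of_pos hdpos]
    apply Real.exp_le_exp.mpr
    rw [mul_one_div, div_le_iff₀ (by positivity)]
    have h1 : (0 : ℝ) ≤ (L + 1) * Real.log (α + 1) := by positivity
    nlinarith
  have hexp : Real.exp 2 ≤ 10 := by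
    have h1 : Real.exp 2 = Real.exp 1 * Real.exp 1 := by rw [← Real.exp_add]; norm_num
    have h2 := Real.exp_one_lt_d9
    have h3 := Real.exp_pos 1
    rw [h1]
    nlinarith
  have hE2 : E ^ 8 ≤ 10 ^ (L + 1) := by
    calc E ^ 8 ≤ (Real.exp ((L + 1) / 4)) ^ 8 := pow_le_pow_left₀ hEpos.le hE1 8
      _ = (Real.exp 2) ^ (L + 1) := by
        rw [← Real.exp_nat_mul, ← Real.exp_nat_mul]
        congr 1
        push_cast
        ring
      _ ≤ 10 ^ (L + 1) := pow_le_pow_left₀ (Real.exp_pos _).le hexp _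
  have hfin : (1 / 2 * E) ^ 8 ≤ (#X : ℝ) ^ 8 := by
    rw [mul_pow]
    have h1 : (10 : ℝ) ^ (L + 1) = 10 * 10 ^ L := by ring
    have h2 : (0 : ℝ) < 10 ^ L := by positivity
    rw [h1] at hE2
    norm_num
    linarith
  exact le_of_pow_le_pow_left₀ (by norm_num) (by positivity) hfin

end Pool.Agent.Lib.MP_61ce55_lc
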